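import Pool.Agent.Helper74.SPW.Tool
import Pool.Agent.Helper74.W2O.Mod

/-!
# Square tilings coded by a linear order and long paths between its points
-/

set_option autoImplicit false

namespace Pool.Agent.Helper74.SPW

open Pool.Agent.Helper29.Prefix Pool.Agent.Helper29.TD Finset

/-- the kinds of elements: core (`none`), inner points of the paths, padding -/
abbrev Kd (J s : ℕ) : Type := Option (Fin (J + 1) ⊕ Fin s)

variable {M Γ : Type}

/-- `i` steps -/
def NX (nx : M → M → Prop) : ℕ → M → M → Prop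
  | 0, x, y => x = y
  | i + 1, x, y => ∃ z, NX nx i x z ∧ nx z y

/-- `x` is the first inner point of the path from `u` to `v` -/
def Cell (J : ℕ) (st en nx : M → M → Prop) (x u v : M) : Prop :=
  st x u ∧ ∃ y, NX nx J x y ∧ en y v

/-- successor -/
def Suc (lt : M → M → Prop) (u v : M) : Prop := lt u v ∧ ∀ w, ¬ (lt u w ∧ lt w v)

/-- The axioms of the coding. -/
structure PAx (W : Wang Γ) (J s : ℕ) (lt st en nx : M → M → Prop) (K : Kd J s → M → Prop)
    (T : Γ → M → Prop) : Prop where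
  ke : ∀ x, ∃ k, K k x
  ku : ∀ x k k', K k x → K k' x → k = k'
  ltk : ∀ x y, lt x y → K none x ∧ K none y
  irr : ∀ x, ¬ lt x x
  tr : ∀ x y z, lt x y → lt y z → lt x z
  tot : ∀ x y, K none x → K none y → ¬ x = y → lt x y ∨ lt y x
  ne : ∃ x, K none x
  pade : ∀ i : Fin s, ∃ x, K (some (Sum.inr i)) x
  padu : ∀ (i : Fin s) (x y : M), K (some (Sum.inr i)) x → K (some (Sum.inr i)) y → x = y
  stk : ∀ x u, st x u → K (some (Sum.inl 0)) x ∧ K none u
  enk : ∀ x v, en x v → K (some (Sum.inl (Fin.last J))) x ∧ K none v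
  nxk : ∀ x y, nx x y → ∃ i : Fin J, K (some (Sum.inl i.castSucc)) x ∧ K (some (Sum.inl i.succ)) y
  ste : ∀ x, K (some (Sum.inl 0)) x → ∃ u, st x u
  stu : ∀ x u u', st x u → st x u' → u = u'
  ene : ∀ x, K (some (Sum.inl (Fin.last J))) x → ∃ u, en x u
  enu : ∀ x u u', en x u → en x u' → u = u'
  nxe : ∀ (i : Fin J) (x : M), K (some (Sum.inl i.castSucc)) x → ∃ y, nx x y
  nxu : ∀ x u u', nx x u → nx x u' → u = u'
  pne : ∀ (i : Fin J) (y : M), K (some (Sum.inl i.succ)) y → ∃ x, nx x y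
  pnu : ∀ x x' y, nx x y → nx x' y → x = x'
  ce : ∀ u v, K none u → K none v → ∃ x, Cell J st en nx x u v
  cu : ∀ x x' u v, Cell J st en nx x u v → Cell J st en nx x' u v → x = x'
  te : ∀ x, K (some (Sum.inl 0)) x → ∃ γ, T γ x
  tR : ∀ (x x' u u' v : M) (γ γ' : Γ), Cell J st en nx x u v → Cell J st en nx x' u' v →
    Suc lt u u' → T γ x → T γ' x' → W.R γ γ'
  tU : ∀ (x x' u v v' : M) (γ γ' : Γ), Cell J st en nx x u v → Cell J st en nx x' u v' →
    Suc lt v v' → T γ x → T γ' x' → W.U γ γ'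
  tl : ∀ (x u v : M) (γ : Γ), Cell J st en nx x u v → (∀ w, ¬ lt w u) → T γ x → W.l γ
  tr' : ∀ (x u v : M) (γ : Γ), Cell J st en nx x u v → (∀ w, ¬ lt u w) → T γ x → W.r γ
  tb : ∀ (x u v : M) (γ : Γ), Cell J st en nx x u v → (∀ w, ¬ lt w v) → T γ x → W.b γ
  tt : ∀ (x u v : M) (γ : Γ), Cell J st en nx x u v → (∀ w, ¬ lt v w) → T γ x → W.t γ
  tc : ∀ (x u v : M) (γ : Γ), Cell J st en nx x u v → (∀ w, ¬ lt w u) → (∀ w, ¬ lt w v) →
    T γ x → W.c γ

section Dec

variable {W : Wang Γ} {J s : ℕ} {lt st en nx : M → M → Prop} {K : Kd J s → M → Prop}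
  {T : Γ → M → Prop}

lemma PAx.nx_ex (H : PAx W J s lt st en nx K T) {x : M} (hx : K (some (Sum.inl 0)) x) :
    ∀ i (hi : i < J + 1), ∃ y, NX nx i x y ∧ K (some (Sum.inl ⟨i, hi⟩)) y := by
  intro i
  induction i with
  | zero => intro _; exact ⟨x, rfl, hx⟩
  | succ i ih =>
    intro hi
    obtain ⟨y, h1, h2⟩ := ih (by omega)
    obtain ⟨z, hz⟩ := H.nxe ⟨i, by omega⟩ y h2
    refine ⟨z, ⟨y, h1, hz⟩, ?_⟩
    obtain ⟨i', h3, h4⟩ := H.nxk _ _ hz
    have h5 := H.ku _ _ _ h2 h3
    simp only [Option.some.injEq, Sum.inl.injEq] at h5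
    have h6 : i = i'.1 := by
      have := congrArg Fin.val h5
      simpa using this
    have h7 : i'.succ = ⟨i + 1, hi⟩ := by
      apply Fin.ext
      simp [h6]
    rwa [h7] at h4

lemma PAx.nx_un (H : PAx W J s lt st en nx K T) {x : M} :
    ∀ i y y', NX nx i x y → NX nx i x y' → y = y' := by
  intro i
  induction i with
  | zero => intro y y' h h'; exact h.symm.trans h'
  | succ i ih =>
    rintro y y' ⟨z, h1, h2⟩ ⟨z', h1', h2'⟩
    rw [ih z z' h1 h1'] at h2
    exact H.nxu _ _ _ h2 h2'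

lemma PAx.cell_ex (H : PAx W J s lt st en nx K T) {x : M} (hx : K (some (Sum.inl 0)) x) :
    ∃ u v, Cell J st en nx x u v ∧ K none u ∧ K none v := by
  obtain ⟨u, hu⟩ := H.ste x hx
  obtain ⟨y, h1, h2⟩ := H.nx_ex hx J (Nat.lt_succ_self J)
  obtain ⟨v, hv⟩ := H.ene y h2
  exact ⟨u, v, ⟨hu, y, h1, hv⟩, (H.stk _ _ hu).2, (H.enk _ _ hv).2⟩

lemma PAx.cell_un (H : PAx W J s lt st en nx K T) {x u v u' v' : M}
    (h : Cell J st en nx x u v) (h' : Cell J st en nx x u' v') : u = u' ∧ v = v' := by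
  obtain ⟨h1, y, h2, h3⟩ := h
  obtain ⟨h1', y', h2', h3'⟩ := h'
  refine ⟨H.stu _ _ _ h1 h1', ?_⟩
  rw [H.nx_un J y y' h2 h2'] at h3
  exact H.enu _ _ _ h3 h3'

open Classical in
/-- number of elements of a kind -/
noncomputable def kap [Fintype M] (K : Kd J s → M → Prop) (k : Kd J s) : ℕ :=
  (univ.filter (fun x => K k x)).card

lemma PAx.kap_pad [Fintype M] (H : PAx W J s lt st en nx K T) (i : Fin s) :
    kap K (some (Sum.inr i)) = 1 := by
  classical
  unfold kap
  rw [Finset.card_eq_one]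
  obtain ⟨x, hx⟩ := H.pade i
  refine ⟨x, ?_⟩
  ext y
  simp only [Finset.mem_filter, Finset.mem_univ, true_and, Finset.mem_singleton]
  constructor
  · intro hy
    exact H.padu i _ _ hy hx
  · rintro rfl
    exact hx

lemma PAx.kap_zero [Fintype M] (H : PAx W J s lt st en nx K T) :
    kap K (some (Sum.inl 0)) = kap K none * kap K none := by
  classical
  unfold kap
  rw [← Finset.card_product]
  have h1 : ∀ x, K (some (Sum.inl 0)) x → ∃ p : M × M, Cell J st en nx x p.1 p.2 ∧ K none p.1 ∧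
      K none p.2 := by
    intro x hx
    obtain ⟨u, v, h⟩ := H.cell_ex hx
    exact ⟨(u, v), h⟩
  choose g hg using h1
  refine Finset.card_bij (fun x hx => g x (by simpa using hx)) ?_ ?_ ?_
  · intro x hx
    have := hg x (by simpa using hx)
    simp only [Finset.mem_product, Finset.mem_filter, Finset.mem_univ, true_and]
    exact this.2
  · intro x hx x' hx' h
    have h1 := (hg x (by simpa using hx)).1
    have h2 := (hg x' (by simpa using hx')).1
    rw [← h] at h2
    exact H.cu _ _ _ _ h1 h2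
  · rintro ⟨u, v⟩ huv
    simp only [Finset.mem_product, Finset.mem_filter, Finset.mem_univ, true_and] at huv
    obtain ⟨x, hx⟩ := H.ce u v huv.1 huv.2
    have hx0 := (H.stk _ _ hx.1).1
    refine ⟨x, by simpa using hx0, ?_⟩
    have h1 := H.cell_un (hg x hx0).1 hx
    exact Prod.ext h1.1 h1.2

lemma PAx.kap_succ [Fintype M] (H : PAx W J s lt st en nx K T) (i : Fin J) :
    kap K (some (Sum.inl i.succ)) = kap K (some (Sum.inl i.castSucc)) := by
  classical
  unfold kap
  symm
  have h1 : ∀ x, K (some (Sum.inl i.castSucc)) x → ∃ y, nx x y := H.nxe i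
  choose g hg using h1
  refine Finset.card_bij (fun x hx => g x (by simpa using hx)) ?_ ?_ ?_
  · intro x hx
    have hx' : K (some (Sum.inl i.castSucc)) x := by simpa using hx
    obtain ⟨i', h3, h4⟩ := H.nxk _ _ (hg x hx')
    have h5 := H.ku _ _ _ hx' h3
    simp only [Option.some.injEq, Sum.inl.injEq, Fin.castSucc_inj] at h5
    subst h5
    simpa using h4
  · intro x hx x' hx' h
    have h1 := hg x (by simpa using hx)
    have h2 := hg x' (by simpa using hx')
    rw [← h] at h2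
    exact H.pnu _ _ _ h1 h2
  · intro y hy
    have hy' : K (some (Sum.inl i.succ)) y := by simpa using hy
    obtain ⟨x, hx⟩ := H.pne i y hy'
    obtain ⟨i', h3, h4⟩ := H.nxk _ _ hx
    have h5 := H.ku _ _ _ hy' h4
    simp only [Option.some.injEq, Sum.inl.injEq, Fin.succ_inj] at h5
    subst h5
    exact ⟨x, by simpa using h3, H.nxu _ _ _ (hg x h3) hx⟩

lemma PAx.kap_all [Fintype M] (H : PAx W J s lt st en nx K T) (i : Fin (J + 1)) :
    kap K (some (Sum.inl i)) = kap K none * kap K none := by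
  induction i using Fin.induction with
  | zero => exact H.kap_zero
  | succ i ih => rw [H.kap_succ i, ih]

lemma PAx.card [Fintype M] (H : PAx W J s lt st en nx K T) :
    Fintype.card M = kap K none + (J + 1) * (kap K none * kap K none) + s := by
  classical
  choose kd hkd using H.ke
  have hk : ∀ k x, K k x ↔ kd x = k := fun k x =>
    ⟨fun h => H.ku _ _ _ (hkd x) h, fun h => by rw [← h]; exact hkd x⟩
  have h1 : ∀ k, kap K k = (univ.filter (fun x => kd x = k)).card := by
    intro k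
    unfold kap
    congr 1
    ext x
    simp [hk]
  have h2 : Fintype.card M = ∑ k : Kd J s, kap K k := by
    rw [← Finset.card_univ, Finset.card_eq_sum_card_fiberwise (f := kd) (t := univ)
      (fun x _ => Finset.mem_univ _)]
    exact Finset.sum_congr rfl (fun k _ => (h1 k).symm)
  rw [h2, Fintype.sum_option, Fintype.sum_sum_type]
  simp only [H.kap_all, H.kap_pad, Finset.sum_const, Finset.card_univ, Fintype.card_fin,
    smul_eq_mul, mul_one]
  ring

lemma PAx.tiles [Fintype M] (H : PAx W J s lt st en nx K T) :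
    1 ≤ kap K none ∧ Tiles W (kap K none) := by
  classical
  have hl : W2O.Lin (fun x y : {x // K none x} => lt x.1 y.1) :=
    ⟨fun x => H.irr _, fun x y z => H.tr _ _ _, fun x y h =>
      H.tot _ _ x.2 y.2 (fun h' => h (Subtype.ext h'))⟩
  obtain ⟨rk, r0, r1, r2, r3⟩ := W2O.exists_rank hl
  have hN : Fintype.card {x // K none x} = kap K none := by
    unfold kap
    rw [Fintype.card_subtype]
  rw [hN] at r0 r3
  set N := kap K none
  have hNpos : 1 ≤ N := by
    obtain ⟨x, hx⟩ := H.ne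
    have := r0 ⟨x, hx⟩
    omega
  choose g hg using r3
  let c : ℕ → M := fun i => if h : i < N then (g i h).1 else (g 0 hNpos).1
  have hc : ∀ i (h : i < N), c i = (g i h).1 := fun i h => dif_pos h
  have hcK : ∀ i, i < N → K none (c i) := by
    intro i hi
    rw [hc i hi]
    exact (g i hi).2
  have hlt : ∀ i, i < N → ∀ w, lt w (c i) → ∃ j, j < i ∧ w = c j := by
    intro i hi w hw
    have hwK := (H.ltk _ _ hw).1
    rw [hc i hi] at hw
    have h1 := (r2 ⟨w, hwK⟩ (g i hi)).1 hw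
    rw [hg] at h1
    refine ⟨rk ⟨w, hwK⟩, h1, ?_⟩
    rw [hc _ (r0 _)]
    exact congrArg Subtype.val (r1 ⟨w, hwK⟩ (g (rk ⟨w, hwK⟩) (r0 _)) (hg _ _).symm)
  have hgt : ∀ i, i < N → ∀ w, lt (c i) w → ∃ j, i < j ∧ j < N ∧ w = c j := by
    intro i hi w hw
    have hwK := (H.ltk _ _ hw).2
    rw [hc i hi] at hw
    have h1 := (r2 (g i hi) ⟨w, hwK⟩).1 hw
    rw [hg] at h1
    refine ⟨rk ⟨w, hwK⟩, h1, r0 _, ?_⟩
    rw [hc _ (r0 _)]
    exact congrArg Subtype.val (r1 ⟨w, hwK⟩ (g (rk ⟨w, hwK⟩) (r0 _)) (hg _ _).symm)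
  have hinj : ∀ i j, i < N → j < N → c i = c j → i = j := by
    intro i j hi hj h
    rw [hc i hi, hc j hj] at h
    have h2 : g i hi = g j hj := Subtype.ext h
    rw [← hg i hi, h2, hg]
  have hsuc : ∀ i, i + 1 < N → Suc lt (c i) (c (i + 1)) := by
    intro i hi
    constructor
    · rw [hc i (by omega), hc (i + 1) hi]
      refine (r2 _ _).2 ?_
      rw [hg, hg]
      omega
    · rintro w ⟨h1, h2⟩
      obtain ⟨j, h3, h4⟩ := hlt (i + 1) hi w h2
      obtain ⟨j', h5, h6, h7⟩ := hgt i (by omega) w h1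
      have := hinj j j' (by omega) h6 (h4.symm.trans h7)
      omega
  have hfirst : ∀ w, ¬ lt w (c 0) := by
    intro w hw
    obtain ⟨j, h1, _⟩ := hlt 0 hNpos w hw
    omega
  have hlast : ∀ w, ¬ lt (c (N - 1)) w := by
    intro w hw
    obtain ⟨j, h1, h2, _⟩ := hgt (N - 1) (by omega) w hw
    omega
  -- the cells
  have hcell : ∀ a b, a < N → b < N → ∃ p : M × Γ, Cell J st en nx p.1 (c a) (c b) ∧ T p.2 p.1 := by
    intro a b ha hb
    obtain ⟨x, hx⟩ := H.ce _ _ (hcK a ha) (hcK b hb)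
    obtain ⟨γ, hγ⟩ := H.te x (H.stk _ _ hx.1).1
    exact ⟨(x, γ), hx, hγ⟩
  choose p hp hT using hcell
  let f : ℕ → ℕ → Γ := fun a b => if h : a < N ∧ b < N then (p a b h.1 h.2).2 else
    (p 0 0 hNpos hNpos).2
  have hf : ∀ a b (ha : a < N) (hb : b < N), f a b = (p a b ha hb).2 :=
    fun a b ha hb => dif_pos ⟨ha, hb⟩
  refine ⟨hNpos, f, ?_, ?_, ?_, ?_, ?_, ?_, ?_⟩
  · intro x y hx hy
    rw [hf x y (by omega) hy, hf (x + 1) y hx hy]
    exact H.tR _ _ _ _ _ _ _ (hp x y _ hy) (hp (x + 1) y hx hy) (hsuc x hx) (hT _ _ _ _)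
      (hT _ _ _ _)
  · intro x y hx hy
    rw [hf x y hx (by omega), hf x (y + 1) hx hy]
    exact H.tU _ _ _ _ _ _ _ (hp x y hx _) (hp x (y + 1) hx hy) (hsuc y hy) (hT _ _ _ _)
      (hT _ _ _ _)
  · intro y hy
    rw [hf 0 y hNpos hy]
    exact H.tl _ _ _ _ (hp 0 y _ hy) hfirst (hT _ _ _ _)
  · intro y hy
    rw [hf (N - 1) y (by omega) hy]
    exact H.tr' _ _ _ _ (hp (N - 1) y (by omega) hy) hlast (hT _ _ _ _)
  · intro x hx
    rw [hf x 0 hx hNpos]
    exact H.tb _ _ _ _ (hp x 0 hx _) hfirst (hT _ _ _ _)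
  · intro x hx
    rw [hf x (N - 1) hx (by omega)]
    exact H.tt _ _ _ _ (hp x (N - 1) hx (by omega)) hlast (hT _ _ _ _)
  · rw [hf 0 0 hNpos hNpos]
    exact H.tc _ _ _ _ (hp 0 0 _ _) hfirst hfirst (hT _ _ _ _)

/-- adjacency -/
def PAdj (lt st en nx : M → M → Prop) (x y : M) : Prop :=
  x ≠ y ∧ ((lt x y ∨ lt y x) ∨ (st x y ∨ st y x) ∨ (en x y ∨ en y x) ∨ (nx x y ∨ nx y x))

/-- Elements outside the core have degree at most two. -/
lemma PAx.deg (H : PAx W J s lt st en nx K T) {x : M} (hx : ¬ K none x) :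
    ∃ a b, ∀ y, PAdj lt st en nx x y → y = a ∨ y = b := by
  obtain ⟨k, hk⟩ := H.ke x
  have key : ∀ k', K k' x → k = k' := fun k' h => H.ku _ _ _ hk h
  rcases k with _ | (i | i)
  · exact absurd hk hx
  · have hback : ∃ a, (∀ y, st x y → y = a) ∧ ∀ y, nx y x → y = a := by
      refine Fin.cases (motive := fun i => K (some (Sum.inl i)) x → ∃ a, (∀ y, st x y → y = a) ∧
        ∀ y, nx y x → y = a) (fun hk => ?_) (fun i' hk => ?_) i hk
      · obtain ⟨u, hu⟩ := H.ste x hk
        refine ⟨u, fun y hy => H.stu _ _ _ hy hu, fun y hy => ?_⟩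
        obtain ⟨i', _, h4⟩ := H.nxk _ _ hy
        have h5 := H.ku _ _ _ hk h4
        simp only [Option.some.injEq, Sum.inl.injEq] at h5
        exact absurd h5 (Fin.succ_ne_zero i').symm
      · obtain ⟨u, hu⟩ := H.pne i' x hk
        refine ⟨u, fun y hy => ?_, fun y hy => H.pnu _ _ _ hy hu⟩
        have h5 := H.ku _ _ _ hk (H.stk _ _ hy).1
        simp only [Option.some.injEq, Sum.inl.injEq] at h5
        exact absurd h5 (Fin.succ_ne_zero i')
    have hforw : ∃ a, (∀ y, en x y → y = a) ∧ ∀ y, nx x y → y = a := by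
      refine Fin.lastCases (motive := fun i => K (some (Sum.inl i)) x → ∃ a, (∀ y, en x y → y = a) ∧
        ∀ y, nx x y → y = a) (fun hk => ?_) (fun i' hk => ?_) i hk
      · obtain ⟨u, hu⟩ := H.ene x hk
        refine ⟨u, fun y hy => H.enu _ _ _ hy hu, fun y hy => ?_⟩
        obtain ⟨i', h3, _⟩ := H.nxk _ _ hy
        have h5 := H.ku _ _ _ hk h3
        simp only [Option.some.injEq, Sum.inl.injEq] at h5
        exact absurd h5 (Fin.castSucc_lt_last i').ne'
      · obtain ⟨u, hu⟩ := H.nxe i' x hk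
        refine ⟨u, fun y hy => ?_, fun y hy => H.nxu _ _ _ hy hu⟩
        have h5 := H.ku _ _ _ hk (H.enk _ _ hy).1
        simp only [Option.some.injEq, Sum.inl.injEq] at h5
        exact absurd h5 (Fin.castSucc_lt_last i').ne
    obtain ⟨a, ha1, ha2⟩ := hback
    obtain ⟨b, hb1, hb2⟩ := hforw
    refine ⟨a, b, fun y hy => ?_⟩
    rcases hy.2 with (h | h) | (h | h) | (h | h) | (h | h)
    · exact absurd (H.ltk _ _ h).1 hx
    · exact absurd (H.ltk _ _ h).2 hx
    · exact Or.inl (ha1 y h)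
    · exact absurd (H.stk _ _ h).2 hx
    · exact Or.inr (hb1 y h)
    · exact absurd (H.enk _ _ h).2 hx
    · exact Or.inr (hb2 y h)
    · exact Or.inl (ha2 y h)
  · refine ⟨x, x, fun y hy => ?_⟩
    exfalso
    rcases hy.2 with (h | h) | (h | h) | (h | h) | (h | h)
    · exact absurd (H.ltk _ _ h).1 hx
    · exact absurd (H.ltk _ _ h).2 hx
    · exact absurd (key _ (H.stk _ _ h).1) (by simp)
    · exact absurd (H.stk _ _ h).2 hx
    · exact absurd (key _ (H.enk _ _ h).1) (by simp)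
    · exact absurd (H.enk _ _ h).2 hx
    · obtain ⟨i', h3, _⟩ := H.nxk _ _ h
      exact absurd (key _ h3) (by simp)
    · obtain ⟨i', _, h4⟩ := H.nxk _ _ h
      exact absurd (key _ h4) (by simp)

/-- The number of elements of degree at least three. -/
lemma PAx.branch [Finite M] (H : PAx W J s lt st en nx K T) :
    {x | 3 ≤ {y | PAdj lt st en nx x y}.ncard}.ncard ≤ {x | K none x}.ncard := by
  refine Set.ncard_le_ncard (fun x hx => ?_) (Set.toFinite _)
  by_contra hcon
  obtain ⟨a, b, hab⟩ := H.deg hcon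
  have h1 : {y | PAdj lt st en nx x y}.ncard ≤ ({a, b} : Set M).ncard :=
    Set.ncard_le_ncard (fun y hy => hab y hy) (Set.toFinite _)
  have h2 : ({a, b} : Set M).ncard ≤ 2 := Set.ncard_insert_le a {b} |>.trans (by
    rw [Set.ncard_singleton])
  have h3 : 3 ≤ {y | PAdj lt st en nx x y}.ncard := hx
  omega

lemma ncard_fun_le [Finite M] (r : M → M → Prop) (hr : ∀ x u u', r x u → r x u' → u = u')
    (S : Set M) (hS : ∀ x u, r x u → x ∈ S) : {p : M × M | r p.1 p.2}.ncard ≤ S.ncard := by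
  refine Set.ncard_le_ncard_of_injOn Prod.fst (fun p hp => hS _ _ hp) ?_ (Set.toFinite _)
  intro p hp p' hp' h
  refine Prod.ext h ?_
  have h1 : r p.1 p.2 := hp
  have h2 : r p'.1 p'.2 := hp'
  have h3 : p.1 = p'.1 := h
  rw [← h3] at h2
  exact hr _ _ _ h1 h2

lemma ncard_swap [Finite M] (r : M → M → Prop) :
    {p : M × M | r p.2 p.1}.ncard = {p : M × M | r p.1 p.2}.ncard := by
  refine Set.ncard_congr (fun p _ => p.swap) ?_ ?_ ?_
  · intro p hp; exact hp
  · intro p p' _ _ h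
    exact Prod.swap_injective h
  · intro p hp
    exact ⟨p.swap, hp, Prod.swap_swap p⟩

/-- The number of ordered pairs of adjacent elements. -/
lemma PAx.edges [Fintype M] (H : PAx W J s lt st en nx K T) :
    {p : M × M | PAdj lt st en nx p.1 p.2}.ncard ≤ (2 * J + 5) * (kap K none * kap K none) := by
  classical
  set N := kap K none with hN
  have e0 : {x | K none x}.ncard = N := by
    rw [hN]
    unfold kap
    rw [← Set.ncard_coe_finset]
    congr 1
    ext x
    simp
  have e1 : {x | K (some (Sum.inl 0)) x}.ncard = N * N := by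
    rw [← H.kap_zero]
    unfold kap
    rw [← Set.ncard_coe_finset]
    congr 1
    ext x
    simp
  have e2 : {x | ∃ i, K (some (Sum.inl i)) x}.ncard ≤ (J + 1) * (N * N) := by
    have h1 : {x | ∃ i, K (some (Sum.inl i)) x} = ↑((univ : Finset (Fin (J + 1))).biUnion
        (fun i => univ.filter (fun x => K (some (Sum.inl i)) x))) := by
      ext x
      simp
    rw [h1, Set.ncard_coe_finset]
    refine Finset.card_biUnion_le.trans ?_
    have h2 : ∀ i ∈ (univ : Finset (Fin (J + 1))),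
        (univ.filter (fun x => K (some (Sum.inl i)) x)).card ≤ N * N := fun i _ => by
      have h3 := H.kap_all i
      unfold kap at h3
      rw [hN]
      unfold kap
      exact (le_of_eq (by convert h3))
    refine (Finset.sum_le_card_nsmul _ _ _ h2).trans ?_
    rw [Finset.card_univ, Fintype.card_fin, smul_eq_mul]
  have f1 : {p : M × M | st p.1 p.2}.ncard ≤ N * N := by
    rw [← e1]
    exact ncard_fun_le st H.stu _ (fun x u h => (H.stk _ _ h).1)
  have f2 : {p : M × M | en p.1 p.2 ∨ nx p.1 p.2}.ncard ≤ (J + 1) * (N * N) := by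
    refine le_trans (ncard_fun_le (fun x y => en x y ∨ nx x y) ?_ {x | ∃ i, K (some (Sum.inl i)) x}
      ?_) e2
    · rintro x u u' (h | h) (h' | h')
      · exact H.enu _ _ _ h h'
      · exfalso
        obtain ⟨i', h3, _⟩ := H.nxk _ _ h'
        have h5 := H.ku _ _ _ (H.enk _ _ h).1 h3
        simp only [Option.some.injEq, Sum.inl.injEq] at h5
        exact absurd h5 (Fin.castSucc_lt_last i').ne'
      · exfalso
        obtain ⟨i', h3, _⟩ := H.nxk _ _ h
        have h5 := H.ku _ _ _ (H.enk _ _ h').1 h3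
        simp only [Option.some.injEq, Sum.inl.injEq] at h5
        exact absurd h5 (Fin.castSucc_lt_last i').ne'
      · exact H.nxu _ _ _ h h'
    · rintro x u (h | h)
      · exact ⟨_, (H.enk _ _ h).1⟩
      · obtain ⟨i', h3, _⟩ := H.nxk _ _ h
        exact ⟨_, h3⟩
  have f0 : {p : M × M | K none p.1 ∧ K none p.2}.ncard = N * N := by
    have h1 : {p : M × M | K none p.1 ∧ K none p.2} = {x | K none x} ×ˢ {x | K none x} := by
      ext p
      rfl
    rw [h1, Set.ncard_prod, e0]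
  have g1 := ncard_swap st
  have g2 := ncard_swap (fun x y => en x y ∨ nx x y)
  have hsub : {p : M × M | PAdj lt st en nx p.1 p.2} ⊆
      {p : M × M | K none p.1 ∧ K none p.2} ∪ ({p : M × M | st p.1 p.2} ∪
        ({p : M × M | st p.2 p.1} ∪ ({p : M × M | en p.1 p.2 ∨ nx p.1 p.2} ∪
          {p : M × M | en p.2 p.1 ∨ nx p.2 p.1}))) := by
    intro p hp
    rcases hp.2 with (h | h) | (h | h) | (h | h) | (h | h)
    · exact Or.inl (H.ltk _ _ h)
    · exact Or.inl (H.ltk _ _ h).symm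
    · exact Or.inr (Or.inl h)
    · exact Or.inr (Or.inr (Or.inl h))
    · exact Or.inr (Or.inr (Or.inr (Or.inl (Or.inl h))))
    · exact Or.inr (Or.inr (Or.inr (Or.inr (Or.inl h))))
    · exact Or.inr (Or.inr (Or.inr (Or.inl (Or.inr h))))
    · exact Or.inr (Or.inr (Or.inr (Or.inr (Or.inr h))))
  have h1 := Set.ncard_le_ncard hsub (Set.toFinite _)
  have u1 := Set.ncard_union_le {p : M × M | K none p.1 ∧ K none p.2} ({p : M × M | st p.1 p.2} ∪
        ({p : M × M | st p.2 p.1} ∪ ({p : M × M | en p.1 p.2 ∨ nx p.1 p.2} ∪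
          {p : M × M | en p.2 p.1 ∨ nx p.2 p.1})))
  have u2 := Set.ncard_union_le {p : M × M | st p.1 p.2}
        ({p : M × M | st p.2 p.1} ∪ ({p : M × M | en p.1 p.2 ∨ nx p.1 p.2} ∪
          {p : M × M | en p.2 p.1 ∨ nx p.2 p.1}))
  have u3 := Set.ncard_union_le {p : M × M | st p.2 p.1} ({p : M × M | en p.1 p.2 ∨ nx p.1 p.2} ∪
          {p : M × M | en p.2 p.1 ∨ nx p.2 p.1})
  have u4 := Set.ncard_union_le {p : M × M | en p.1 p.2 ∨ nx p.1 p.2}
          {p : M × M | en p.2 p.1 ∨ nx p.2 p.1}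
  have h9 : (2 * J + 5) * (N * N) = N * N + 2 * (N * N) + 2 * ((J + 1) * (N * N)) := by ring
  omega

end Dec

end Pool.Agent.Helper74.SPW
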