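import Pool.Agent.Helper74.SPW.Path

/-!
# The coding by paths: definability, models, sizes
-/

set_option autoImplicit false

namespace Pool.Agent.Helper74.SPW

open FirstOrder FirstOrder.Language Pool.Agent.Helper20.Spectra Pool.Agent.Helper29.Prefix
  Pool.Agent.Helper29.TD

/-- the binary symbols -/
inductive Br4 : Type
  | lt | st | en | nx

instance : Finite Br4 := by
  apply Finite.of_surjective (![Br4.lt, Br4.st, Br4.en, Br4.nx] : Fin 4 → Br4)
  intro s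
  cases s with
  | lt => exact ⟨0, rfl⟩
  | st => exact ⟨1, rfl⟩
  | en => exact ⟨2, rfl⟩
  | nx => exact ⟨3, rfl⟩

variable {Γ : Type} {J s : ℕ}

/-- the axioms as a condition on a structure -/
def Cond (W : Wang Γ) (J s : ℕ) (V : Type) (R : Bs Br4 (Kd J s ⊕ Γ) V) : Prop :=
  PAx W J s (R.b .lt) (R.b .st) (R.b .en) (R.b .nx) (fun k => R.u (Sum.inl k))
    (fun γ => R.u (Sum.inr γ))

lemma def_nx (i : ℕ) : Def2 Br4 (Kd J s ⊕ Γ) (fun _ R x y => NX (R.b .nx) i x y) := by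
  induction i with
  | zero => exact Def.eq _ _
  | succ i ih => exact Def.ex (Def.and (ih.app _ _) (Def.b _ _ _))

lemma def_cell {r : ℕ} (i j k : Fin r) : Def Br4 (Kd J s ⊕ Γ) r (fun _ R v =>
    Cell J (R.b .st) (R.b .en) (R.b .nx) (v i) (v j) (v k)) :=
  Def.and (Def.b _ _ _) (Def.ex (Def.and ((def_nx J).app _ _) (Def.b _ _ _)))

lemma def_suc {r : ℕ} (i j : Fin r) : Def Br4 (Kd J s ⊕ Γ) r (fun _ R v =>
    Suc (R.b .lt) (v i) (v j)) :=
  Def.and (Def.b _ _ _) (Def.all (Def.not (Def.and (Def.b _ _ _) (Def.b _ _ _))))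

lemma def_cond [Finite Γ] (W : Wang Γ) (J s : ℕ) :
    Def Br4 (Kd J s ⊕ Γ) 0 (fun V R _ => Cond W J s V R) := by
  refine Def.congr (P := fun V R v =>
    (∀ x : V, ∃ k : Kd J s, R.u (Sum.inl k) x) ∧
    (∀ x : V, ∀ k k' : Kd J s, R.u (Sum.inl k) x → R.u (Sum.inl k') x → k = k') ∧
    (∀ x y : V, R.b .lt x y → R.u (Sum.inl none) x ∧ R.u (Sum.inl none) y) ∧
    (∀ x : V, ¬ R.b .lt x x) ∧
    (∀ x y z : V, R.b .lt x y → R.b .lt y z → R.b .lt x z) ∧
    (∀ x y : V, R.u (Sum.inl none) x → R.u (Sum.inl none) y → ¬ x = y →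
      R.b .lt x y ∨ R.b .lt y x) ∧
    (∃ x : V, R.u (Sum.inl none) x) ∧
    (∀ i : Fin s, ∃ x : V, R.u (Sum.inl (some (Sum.inr i))) x) ∧
    (∀ i : Fin s, ∀ x y : V, R.u (Sum.inl (some (Sum.inr i))) x →
      R.u (Sum.inl (some (Sum.inr i))) y → x = y) ∧
    (∀ x u : V, R.b .st x u → R.u (Sum.inl (some (Sum.inl 0))) x ∧ R.u (Sum.inl none) u) ∧
    (∀ x u : V, R.b .en x u → R.u (Sum.inl (some (Sum.inl (Fin.last J)))) x ∧
      R.u (Sum.inl none) u) ∧
    (∀ x y : V, R.b .nx x y → ∃ i : Fin J, R.u (Sum.inl (some (Sum.inl i.castSucc))) x ∧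
      R.u (Sum.inl (some (Sum.inl i.succ))) y) ∧
    (∀ x : V, R.u (Sum.inl (some (Sum.inl 0))) x → ∃ u : V, R.b .st x u) ∧
    (∀ x u u' : V, R.b .st x u → R.b .st x u' → u = u') ∧
    (∀ x : V, R.u (Sum.inl (some (Sum.inl (Fin.last J)))) x → ∃ u : V, R.b .en x u) ∧
    (∀ x u u' : V, R.b .en x u → R.b .en x u' → u = u') ∧
    (∀ i : Fin J, ∀ x : V, R.u (Sum.inl (some (Sum.inl i.castSucc))) x → ∃ y : V, R.b .nx x y) ∧
    (∀ x u u' : V, R.b .nx x u → R.b .nx x u' → u = u') ∧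
    (∀ i : Fin J, ∀ y : V, R.u (Sum.inl (some (Sum.inl i.succ))) y → ∃ x : V, R.b .nx x y) ∧
    (∀ x x' y : V, R.b .nx x y → R.b .nx x' y → x = x') ∧
    (∀ u v : V, R.u (Sum.inl none) u → R.u (Sum.inl none) v →
      ∃ x : V, Cell J (R.b .st) (R.b .en) (R.b .nx) x u v) ∧
    (∀ x x' u v : V, Cell J (R.b .st) (R.b .en) (R.b .nx) x u v →
      Cell J (R.b .st) (R.b .en) (R.b .nx) x' u v → x = x') ∧
    (∀ x : V, R.u (Sum.inl (some (Sum.inl 0))) x → ∃ γ : Γ, R.u (Sum.inr γ) x) ∧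
    (∀ x x' u u' v : V, ∀ γ γ' : Γ, Cell J (R.b .st) (R.b .en) (R.b .nx) x u v →
      Cell J (R.b .st) (R.b .en) (R.b .nx) x' u' v → Suc (R.b .lt) u u' → R.u (Sum.inr γ) x →
      R.u (Sum.inr γ') x' → W.R γ γ') ∧
    (∀ x x' u v v' : V, ∀ γ γ' : Γ, Cell J (R.b .st) (R.b .en) (R.b .nx) x u v →
      Cell J (R.b .st) (R.b .en) (R.b .nx) x' u v' → Suc (R.b .lt) v v' → R.u (Sum.inr γ) x →
      R.u (Sum.inr γ') x' → W.U γ γ') ∧
    (∀ x u v : V, ∀ γ : Γ, Cell J (R.b .st) (R.b .en) (R.b .nx) x u v →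
      (∀ w : V, ¬ R.b .lt w u) → R.u (Sum.inr γ) x → W.l γ) ∧
    (∀ x u v : V, ∀ γ : Γ, Cell J (R.b .st) (R.b .en) (R.b .nx) x u v →
      (∀ w : V, ¬ R.b .lt u w) → R.u (Sum.inr γ) x → W.r γ) ∧
    (∀ x u v : V, ∀ γ : Γ, Cell J (R.b .st) (R.b .en) (R.b .nx) x u v →
      (∀ w : V, ¬ R.b .lt w v) → R.u (Sum.inr γ) x → W.b γ) ∧
    (∀ x u v : V, ∀ γ : Γ, Cell J (R.b .st) (R.b .en) (R.b .nx) x u v →
      (∀ w : V, ¬ R.b .lt v w) → R.u (Sum.inr γ) x → W.t γ) ∧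
    (∀ x u v : V, ∀ γ : Γ, Cell J (R.b .st) (R.b .en) (R.b .nx) x u v →
      (∀ w : V, ¬ R.b .lt w u) → (∀ w : V, ¬ R.b .lt w v) → R.u (Sum.inr γ) x → W.c γ)) ?_ ?_
  · repeat' first
      | exact Def.b _ _ _
      | exact Def.u _ _
      | exact Def.eq _ _
      | exact def_cell _ _ _
      | exact def_suc _ _
      | refine Def.and ?_ ?_
      | refine Def.all ?_
      | refine Def.ex ?_
      | refine Def.not ?_
      | refine Def.or ?_ ?_
      | refine Def.imp ?_ ?_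
      | refine Def.all_fin (fun _ => ?_)
      | refine Def.ex_fin (fun _ => ?_)
      | exact Def.const _
  · intro V R v
    constructor
    · intro H
      exact ⟨H.ke, H.ku, H.ltk, H.irr, H.tr, H.tot, H.ne, H.pade, H.padu, H.stk, H.enk, H.nxk,
        H.ste, H.stu, H.ene, H.enu, H.nxe, H.nxu, H.pne, H.pnu, H.ce, H.cu, H.te, H.tR, H.tU,
        H.tl, H.tr', H.tb, H.tt, H.tc⟩
    · rintro ⟨h1, h2, h3, h4, h5, h6, h7, h8, h9, h10, h11, h12, h13, h14, h15, h16, h17, h18, h19,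
        h20, h21, h22, h23, h24, h25, h26, h27, h28, h29, h30⟩
      exact ⟨h1, h2, h3, h4, h5, h6, h7, h8, h9, h10, h11, h12, h13, h14, h15, h16, h17, h18, h19,
        h20, h21, h22, h23, h24, h25, h26, h27, h28, h29, h30⟩

/-! ### The standard models -/

section Std

variable (N J s : ℕ)

/-- the universe -/
abbrev SM (N J s : ℕ) : Type := Fin N ⊕ (Fin (J + 1) × (Fin N × Fin N)) ⊕ Fin s

/-- the kinds -/
def skd {N J s : ℕ} : SM N J s → Kd J s
  | Sum.inl _ => none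
  | Sum.inr (Sum.inl p) => some (Sum.inl p.1)
  | Sum.inr (Sum.inr i) => some (Sum.inr i)

/-- inner points of the paths -/
abbrev cel {N J s : ℕ} (i : Fin (J + 1)) (p : Fin N × Fin N) : SM N J s := Sum.inr (Sum.inl (i, p))

/-- order -/
def slt {N J s : ℕ} (x y : SM N J s) : Prop := ∃ a b : Fin N, a < b ∧ x = Sum.inl a ∧ y = Sum.inl b

/-- first step -/
def sst {N J s : ℕ} (x y : SM N J s) : Prop := ∃ p : Fin N × Fin N, x = cel 0 p ∧ y = Sum.inl p.1

/-- last step -/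
def sen {N J s : ℕ} (x y : SM N J s) : Prop :=
  ∃ p : Fin N × Fin N, x = cel (Fin.last J) p ∧ y = Sum.inl p.2

/-- inner step -/
def snx {N J s : ℕ} (x y : SM N J s) : Prop :=
  ∃ (i : Fin J) (p : Fin N × Fin N), x = cel i.castSucc p ∧ y = cel i.succ p

/-- tiles -/
def stl {N J s : ℕ} (f : ℕ → ℕ → Γ) (γ : Γ) (x : SM N J s) : Prop :=
  ∃ p : Fin N × Fin N, x = cel 0 p ∧ f p.1 p.2 = γ

lemma skd_cel {N J s : ℕ} {x : SM N J s} {i : Fin (J + 1)} (h : skd x = some (Sum.inl i)) :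
    ∃ p, x = cel i p := by
  rcases x with a | ⟨i', p⟩ | a
  · exact absurd h (by simp [skd])
  · simp only [skd, Option.some.injEq, Sum.inl.injEq] at h
    subst h
    exact ⟨p, rfl⟩
  · exact absurd h (by simp [skd])

lemma skd_core {N J s : ℕ} {x : SM N J s} (h : skd x = none) : ∃ a, x = Sum.inl a := by
  rcases x with a | ⟨i', p⟩ | a
  · exact ⟨a, rfl⟩
  · exact absurd h (by simp [skd])
  · exact absurd h (by simp [skd])

lemma snx_iter {N J s : ℕ} (p : Fin N × Fin N) : ∀ (i : ℕ) (hi : i < J + 1) (y : SM N J s),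
    NX snx i (cel 0 p) y ↔ y = cel ⟨i, hi⟩ p := by
  intro i
  induction i with
  | zero =>
    intro hi y
    show cel 0 p = y ↔ _
    exact ⟨fun h => h.symm, fun h => h.symm⟩
  | succ i ih =>
    intro hi y
    show (∃ z, NX snx i (cel 0 p) z ∧ snx z y) ↔ _
    constructor
    · rintro ⟨z, hz, i', p', h1, h2⟩
      rw [ih (by omega)] at hz
      rw [hz] at h1
      simp only [cel, Sum.inr.injEq, Sum.inl.injEq, Prod.mk.injEq] at h1
      rw [h2, ← h1.2]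
      have h3 : i = i'.1 := by
        have := congrArg Fin.val h1.1
        simpa using this
      have h4 : i'.succ = ⟨i + 1, hi⟩ := by
        apply Fin.ext
        simp [h3]
      rw [h4]
    · rintro rfl
      exact ⟨cel ⟨i, by omega⟩ p, (ih (by omega) _).2 rfl, ⟨i, by omega⟩, p, rfl, rfl⟩

lemma scell {N J s : ℕ} (x u v : SM N J s) :
    Cell J sst sen snx x u v ↔ ∃ p : Fin N × Fin N, x = cel 0 p ∧ u = Sum.inl p.1 ∧
      v = Sum.inl p.2 := by
  unfold Cell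
  constructor
  · rintro ⟨⟨p, rfl, rfl⟩, y, hy, q, h1, rfl⟩
    rw [snx_iter p J (Nat.lt_succ_self J)] at hy
    rw [hy] at h1
    simp only [cel, Sum.inr.injEq, Sum.inl.injEq, Prod.mk.injEq] at h1
    exact ⟨p, rfl, rfl, by rw [h1.2]⟩
  · rintro ⟨p, rfl, rfl, rfl⟩
    exact ⟨⟨p, rfl, rfl⟩, cel ⟨J, Nat.lt_succ_self J⟩ p, (snx_iter p J _ _).2 rfl, p, rfl, rfl⟩

lemma ssuc {N J s : ℕ} {a b : Fin N} (h : Suc (slt (N := N) (J := J) (s := s)) (Sum.inl a)
    (Sum.inl b)) : (b : ℕ) = a + 1 := by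
  obtain ⟨⟨a', b', h1, h2, h3⟩, h4⟩ := h
  simp only [Sum.inl.injEq] at h2 h3
  subst h2 h3
  have h1' : (a : ℕ) < b := h1
  by_contra hne
  have hb := b.2
  exact h4 (Sum.inl ⟨(a : ℕ) + 1, by omega⟩) ⟨⟨a, ⟨(a : ℕ) + 1, by omega⟩,
    by rw [Fin.lt_def]; exact Nat.lt_succ_self _, rfl, rfl⟩, ⟨(a : ℕ) + 1, by omega⟩, b,
    by rw [Fin.lt_def]; show (a : ℕ) + 1 < b; omega, rfl, rfl⟩

lemma sfirst {N J s : ℕ} {a : Fin N} (h : ∀ w, ¬ slt (N := N) (J := J) (s := s) w (Sum.inl a)) :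
    (a : ℕ) = 0 := by
  by_contra hne
  have ha := a.2
  exact h (Sum.inl ⟨0, by omega⟩) ⟨⟨0, by omega⟩, a, by rw [Fin.lt_def]; show 0 < (a : ℕ); omega,
    rfl, rfl⟩

lemma slast {N J s : ℕ} {a : Fin N} (h : ∀ w, ¬ slt (N := N) (J := J) (s := s) (Sum.inl a) w) :
    (a : ℕ) = N - 1 := by
  by_contra hne
  have ha := a.2
  exact h (Sum.inl ⟨N - 1, by omega⟩) ⟨a, ⟨N - 1, by omega⟩, by rw [Fin.lt_def]; show (a : ℕ) < N - 1; omega,
    rfl, rfl⟩

lemma std_pax {W : Wang Γ} {N : ℕ} (J s : ℕ) (hN : 1 ≤ N) {f : ℕ → ℕ → Γ}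
    (hR : ∀ x y, x + 1 < N → y < N → W.R (f x y) (f (x + 1) y))
    (hU : ∀ x y, x < N → y + 1 < N → W.U (f x y) (f x (y + 1)))
    (hl : ∀ y, y < N → W.l (f 0 y)) (hr : ∀ y, y < N → W.r (f (N - 1) y))
    (hb : ∀ x, x < N → W.b (f x 0)) (ht : ∀ x, x < N → W.t (f x (N - 1))) (hc : W.c (f 0 0)) :
    PAx W J s (slt (N := N)) sst sen snx (fun k x => skd x = k) (stl f) := by
  constructor
  · exact fun x => ⟨_, rfl⟩
  · exact fun x k k' h h' => h.symm.trans h'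
  · rintro x y ⟨a, b, _, rfl, rfl⟩
    exact ⟨rfl, rfl⟩
  · rintro x ⟨a, b, h, h1, h2⟩
    rw [h1] at h2
    simp only [Sum.inl.injEq] at h2
    rw [h2] at h
    exact lt_irrefl _ h
  · rintro x y z ⟨a, b, h, rfl, rfl⟩ ⟨a', b', h', h1, rfl⟩
    simp only [Sum.inl.injEq] at h1
    subst h1
    exact ⟨a, b', h.trans h', rfl, rfl⟩
  · intro x y hx hy hne
    obtain ⟨a, rfl⟩ := skd_core hx
    obtain ⟨b, rfl⟩ := skd_core hy
    have hab : a ≠ b := fun h => hne (by rw [h])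
    rcases lt_or_gt_of_ne hab with h | h
    · exact Or.inl ⟨a, b, h, rfl, rfl⟩
    · exact Or.inr ⟨b, a, h, rfl, rfl⟩
  · exact ⟨Sum.inl ⟨0, hN⟩, rfl⟩
  · exact fun i => ⟨Sum.inr (Sum.inr i), rfl⟩
  · intro i x y hx hy
    rcases x with a | ⟨i', p⟩ | a
    · exact absurd hx (by simp [skd])
    · exact absurd hx (by simp [skd])
    · rcases y with b | ⟨i', p⟩ | b
      · exact absurd hy (by simp [skd])
      · exact absurd hy (by simp [skd])
      · simp only [skd, Option.some.injEq, Sum.inr.injEq] at hx hy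
        rw [hx, hy]
  · rintro x u ⟨p, rfl, rfl⟩
    exact ⟨rfl, rfl⟩
  · rintro x u ⟨p, rfl, rfl⟩
    exact ⟨rfl, rfl⟩
  · rintro x y ⟨i, p, rfl, rfl⟩
    exact ⟨i, rfl, rfl⟩
  · intro x hx
    obtain ⟨p, rfl⟩ := skd_cel hx
    exact ⟨_, p, rfl, rfl⟩
  · rintro x u u' ⟨p, rfl, rfl⟩ ⟨q, h1, rfl⟩
    simp only [cel, Sum.inr.injEq, Sum.inl.injEq, Prod.mk.injEq, true_and] at h1
    rw [h1]
  · intro x hx
    obtain ⟨p, rfl⟩ := skd_cel hx
    exact ⟨_, p, rfl, rfl⟩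
  · rintro x u u' ⟨p, rfl, rfl⟩ ⟨q, h1, rfl⟩
    simp only [cel, Sum.inr.injEq, Sum.inl.injEq, Prod.mk.injEq, true_and] at h1
    rw [h1]
  · intro i x hx
    obtain ⟨p, rfl⟩ := skd_cel hx
    exact ⟨_, i, p, rfl, rfl⟩
  · rintro x u u' ⟨i, p, rfl, rfl⟩ ⟨i', q, h1, rfl⟩
    simp only [cel, Sum.inr.injEq, Sum.inl.injEq, Prod.mk.injEq, Fin.castSucc_inj] at h1
    rw [h1.1, h1.2]
  · intro i x hx
    obtain ⟨p, rfl⟩ := skd_cel hx
    exact ⟨_, i, p, rfl, rfl⟩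
  · rintro x x' y ⟨i, p, rfl, rfl⟩ ⟨i', q, rfl, h1⟩
    simp only [cel, Sum.inr.injEq, Sum.inl.injEq, Prod.mk.injEq, Fin.succ_inj] at h1
    rw [h1.1, h1.2]
  · intro u v hu hv
    obtain ⟨a, rfl⟩ := skd_core hu
    obtain ⟨b, rfl⟩ := skd_core hv
    exact ⟨cel 0 (a, b), (scell _ _ _).2 ⟨(a, b), rfl, rfl, rfl⟩⟩
  · intro x x' u v h h'
    rw [scell] at h h'
    obtain ⟨p, rfl, rfl, rfl⟩ := h
    obtain ⟨q, rfl, h1, h2⟩ := h'
    simp only [Sum.inl.injEq] at h1 h2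
    rw [Prod.ext h1 h2]
  · intro x hx
    obtain ⟨p, rfl⟩ := skd_cel hx
    exact ⟨_, p, rfl, rfl⟩
  · intro x x' u u' v γ γ' h h' hs h1 h1'
    rw [scell] at h h'
    obtain ⟨p, rfl, rfl, rfl⟩ := h
    obtain ⟨q, rfl, rfl, h2⟩ := h'
    obtain ⟨p', h3, rfl⟩ := h1
    obtain ⟨q', h4, rfl⟩ := h1'
    simp only [cel, Sum.inr.injEq, Sum.inl.injEq, Prod.mk.injEq, true_and] at h2 h3 h4
    subst h3 h4
    have h5 := ssuc hs
    rw [← h2, h5]
    exact hR _ _ (by rw [← h5]; exact q.1.2) p.2.2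
  · intro x x' u v v' γ γ' h h' hs h1 h1'
    rw [scell] at h h'
    obtain ⟨p, rfl, rfl, rfl⟩ := h
    obtain ⟨q, rfl, h2, rfl⟩ := h'
    obtain ⟨p', h3, rfl⟩ := h1
    obtain ⟨q', h4, rfl⟩ := h1'
    simp only [cel, Sum.inr.injEq, Sum.inl.injEq, Prod.mk.injEq, true_and] at h2 h3 h4
    subst h3 h4
    have h5 := ssuc hs
    rw [← h2, h5]
    exact hU _ _ p.1.2 (by rw [← h5]; exact q.2.2)
  · intro x u v γ h hw h1
    rw [scell] at h
    obtain ⟨p, rfl, rfl, rfl⟩ := h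
    obtain ⟨p', h3, rfl⟩ := h1
    simp only [cel, Sum.inr.injEq, Sum.inl.injEq, Prod.mk.injEq, true_and] at h3
    subst h3
    rw [sfirst hw]
    exact hl _ p.2.2
  · intro x u v γ h hw h1
    rw [scell] at h
    obtain ⟨p, rfl, rfl, rfl⟩ := h
    obtain ⟨p', h3, rfl⟩ := h1
    simp only [cel, Sum.inr.injEq, Sum.inl.injEq, Prod.mk.injEq, true_and] at h3
    subst h3
    rw [slast hw]
    exact hr _ p.2.2
  · intro x u v γ h hw h1
    rw [scell] at h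
    obtain ⟨p, rfl, rfl, rfl⟩ := h
    obtain ⟨p', h3, rfl⟩ := h1
    simp only [cel, Sum.inr.injEq, Sum.inl.injEq, Prod.mk.injEq, true_and] at h3
    subst h3
    rw [sfirst hw]
    exact hb _ p.1.2
  · intro x u v γ h hw h1
    rw [scell] at h
    obtain ⟨p, rfl, rfl, rfl⟩ := h
    obtain ⟨p', h3, rfl⟩ := h1
    simp only [cel, Sum.inr.injEq, Sum.inl.injEq, Prod.mk.injEq, true_and] at h3
    subst h3
    rw [slast hw]
    exact ht _ p.1.2
  · intro x u v γ h hw hw' h1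
    rw [scell] at h
    obtain ⟨p, rfl, rfl, rfl⟩ := h
    obtain ⟨p', h3, rfl⟩ := h1
    simp only [cel, Sum.inr.injEq, Sum.inl.injEq, Prod.mk.injEq, true_and] at h3
    subst h3
    rw [sfirst hw, sfirst hw']
    exact hc

end Std

/-- **The coding by paths.** For all parameters `J`, `s` the sizes `N + (J + 1) N² + s` of tilable
squares are the sizes of the models of a first-order sentence, all of whose models with this size
have at most `(2 J + 5) N²` ordered pairs of adjacent elements and at most `N` elements of degree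
at least three. -/
theorem path_coding [Finite Γ] (W : Wang Γ) (J s : ℕ) :
    ∃ φ : (RelLang (Br4 ⊕ (Kd J s ⊕ Γ)) arr).Sentence,
      (∀ (n : ℕ) (I : Interp (Br4 ⊕ (Kd J s ⊕ Γ)) arr (Fin n)), Sat I φ →
        ∃ N, 1 ≤ N ∧ n = N + (J + 1) * (N * N) + s ∧ Tiles W N ∧
          {p : Fin n × Fin n | Adj I p.1 p.2}.ncard ≤ (2 * J + 5) * (N * N) ∧
          {x | 3 ≤ {y | Adj I x y}.ncard}.ncard ≤ N) ∧
      ∀ N, 1 ≤ N → Tiles W N →
        ∃ I : Interp (Br4 ⊕ (Kd J s ⊕ Γ)) arr (Fin (N + (J + 1) * (N * N) + s)), Sat I φ := by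
  classical
  obtain ⟨φ, hφ⟩ := (def_cond W J s).exists_sentence
  refine ⟨φ, ?_, ?_⟩
  · intro n I hI
    have hI' : Sat (Bs.ofI I).toI φ := by rw [Bs.toI_ofI]; exact hI
    have H : PAx W J s _ _ _ _ _ _ := (hφ _ _).1 hI'
    obtain ⟨h1, h2⟩ := H.tiles
    have h3 := H.card
    rw [Fintype.card_fin] at h3
    have hadj : ∀ x y, Adj I x y ↔ PAdj ((Bs.ofI I).b .lt) ((Bs.ofI I).b .st) ((Bs.ofI I).b .en)
        ((Bs.ofI I).b .nx) x y := by
      intro x y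
      have h4 := adj_iff (Bs.ofI I) x y
      rw [Bs.toI_ofI] at h4
      rw [h4]
      unfold PAdj
      refine and_congr_right (fun _ => ?_)
      constructor
      · rintro ⟨sy, h⟩
        cases sy with
        | lt => exact Or.inl h
        | st => exact Or.inr (Or.inl h)
        | en => exact Or.inr (Or.inr (Or.inl h))
        | nx => exact Or.inr (Or.inr (Or.inr h))
      · rintro (h | h | h | h)
        · exact ⟨_, h⟩
        · exact ⟨_, h⟩
        · exact ⟨_, h⟩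
        · exact ⟨_, h⟩
    refine ⟨_, h1, h3, h2, ?_, ?_⟩
    · simp only [hadj]
      exact H.edges
    · simp only [hadj]
      refine H.branch.trans (le_of_eq ?_)
      unfold kap
      rw [← Set.ncard_coe_finset]
      congr 1
      ext x
      simp
  · rintro N hN ⟨f, hR, hU, hl, hr, hb, ht, hc⟩
    let R : Bs Br4 (Kd J s ⊕ Γ) (SM N J s) := ⟨fun sy => match sy with
      | .lt => slt
      | .st => sst
      | .en => sen
      | .nx => snx, fun k => Sum.elim (fun k x => skd x = k) (fun γ => stl f γ) k⟩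
    have hcard : Fintype.card (SM N J s) = N + (J + 1) * (N * N) + s := by
      simp only [Fintype.card_sum, Fintype.card_prod, Fintype.card_fin]
      ring
    let e : SM N J s ≃ Fin (N + (J + 1) * (N * N) + s) :=
      (Fintype.equivFin _).trans (finCongr hcard)
    refine ⟨(R.map e).toI, (sat_map R e φ).2 ((hφ _ R).2 ?_)⟩
    exact std_pax J s hN hR hU hl hr hb ht hc

end Pool.Agent.Helper74.SPW
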