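import Pool.Agent.Helper29.TD.BFSat
import Pool.Agent.Helper29.Prefix.Wang

/-!
# Vocabularies of binary and unary relation symbols: uniform definability
-/

set_option autoImplicit false

namespace Pool.Agent.Helper74.SPW

open FirstOrder FirstOrder.Language Pool.Agent.Helper20.Spectra Pool.Agent.Helper29.TD

/-- the arities: binary symbols `B`, unary symbols `U` -/
def arr {B U : Type} : B ⊕ U → ℕ := Sum.elim (fun _ => 2) (fun _ => 1)

/-- structures with universe `V` -/
structure Bs (B U V : Type) where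
  /-- binary relations -/
  b : B → V → V → Prop
  /-- unary relations -/
  u : U → V → Prop

variable {B U : Type}

/-- the interpretation of the symbols -/
def Bs.toI {V : Type} (R : Bs B U V) : Interp (B ⊕ U) arr V
  | Sum.inl s => fun v => R.b s (v (0 : Fin 2)) (v (1 : Fin 2))
  | Sum.inr s => fun v => R.u s (v (0 : Fin 1))

/-- the structure given by an interpretation -/
def Bs.ofI {V : Type} (I : Interp (B ⊕ U) arr V) : Bs B U V where
  b := fun s x y => I (Sum.inl s) (![x, y] : Fin 2 → V)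
  u := fun s x => I (Sum.inr s) (![x] : Fin 1 → V)

lemma Bs.toI_ofI {V : Type} (I : Interp (B ⊕ U) arr V) : (Bs.ofI I).toI = I := by
  funext s v
  rcases s with s | s
  · show I (Sum.inl s) (![v (0 : Fin 2), v (1 : Fin 2)] : Fin 2 → V) = I (Sum.inl s) v
    congr 1
    funext i
    change Fin 2 at i
    fin_cases i <;> rfl
  · show I (Sum.inr s) (![v (0 : Fin 1)] : Fin 1 → V) = I (Sum.inr s) v
    congr 1
    funext i
    change Fin 1 at i
    fin_cases i
    rfl

/-- adjacency in the Gaifman graph -/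
lemma adj_iff {V : Type} (R : Bs B U V) (x y : V) :
    Adj R.toI x y ↔ x ≠ y ∧ ∃ s, R.b s x y ∨ R.b s y x := by
  unfold Adj
  refine and_congr_right (fun hxy => ?_)
  constructor
  · rintro ⟨s, v, h, ⟨i, hi⟩, j, hj⟩
    rcases s with s | s
    · change Fin 2 at i j
      refine ⟨s, ?_⟩
      change R.b s (v (0 : Fin 2)) (v (1 : Fin 2)) at h
      fin_cases i <;> fin_cases j
      · exact absurd (hi.symm.trans hj) hxy
      · left
        rw [← hi, ← hj]
        exact h
      · right
        rw [← hi, ← hj]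
        exact h
      · exact absurd (hi.symm.trans hj) hxy
    · change Fin 1 at i j
      have : i = j := Subsingleton.elim _ _
      rw [this] at hi
      exact absurd (hi.symm.trans hj) hxy
  · rintro ⟨s, h | h⟩
    · exact ⟨Sum.inl s, (![x, y] : Fin 2 → V), h, ⟨(0 : Fin 2), rfl⟩, (1 : Fin 2), rfl⟩
    · exact ⟨Sum.inl s, (![y, x] : Fin 2 → V), h, ⟨(1 : Fin 2), rfl⟩, (0 : Fin 2), rfl⟩

/-- transport of a structure -/
def Bs.map {V V' : Type} (R : Bs B U V) (e : V ≃ V') : Bs B U V' where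
  b := fun s x y => R.b s (e.symm x) (e.symm y)
  u := fun s x => R.u s (e.symm x)

lemma sat_map {V V' : Type} (R : Bs B U V) (e : V ≃ V')
    (φ : (RelLang (B ⊕ U) arr).Sentence) : Sat (R.map e).toI φ ↔ Sat R.toI φ := by
  rw [Sat.iso R.toI e φ]
  have : (R.map e).toI = fun s v => R.toI s (fun i => e.symm (v i)) := by
    funext s v
    rcases s with s | s <;> rfl
  rw [this]

/-- uniformly definable conditions on a structure `(V, R)` and `r` elements -/
def Def (B U : Type) (r : ℕ) (P : ∀ (V : Type), Bs B U V → (Fin r → V) → Prop) : Prop :=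
  ∃ φ : (RelLang (B ⊕ U) arr).BoundedFormula Empty r, ∀ (V : Type) (R : Bs B U V) (v : Fin r → V),
    @BoundedFormula.Realize _ V (mkS R.toI) _ _ φ default v ↔ P V R v

lemma Def.exists_sentence {P : ∀ (V : Type), Bs B U V → Prop}
    (h : Def B U 0 (fun V R _ => P V R)) : ∃ φ : (RelLang (B ⊕ U) arr).Sentence,
    ∀ (V : Type) (R : Bs B U V), Sat R.toI φ ↔ P V R := by
  obtain ⟨φ, hφ⟩ := h
  exact ⟨φ, fun V R => hφ V R default⟩

namespace Def

variable {r : ℕ}

lemma congr {P Q : ∀ (V : Type), Bs B U V → (Fin r → V) → Prop} (h : Def B U r P)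
    (hPQ : ∀ V R v, Q V R v ↔ P V R v) : Def B U r Q := by
  obtain ⟨ψ, h⟩ := h
  exact ⟨ψ, fun M R v => (h M R v).trans (hPQ M R v).symm⟩

lemma const (p : Prop) : Def B U r (fun _ _ _ => p) := by
  by_cases hp : p
  · refine ⟨⊤, fun M R v => ?_⟩
    let _ := mkS R.toI
    simp [hp]
  · refine ⟨⊥, fun M R v => ?_⟩
    let _ := mkS R.toI
    simp [hp]

lemma eq (i j : Fin r) : Def B U r (fun _ _ v => v i = v j) := by
  refine ⟨(Term.var (Sum.inr i)).bdEqual (Term.var (Sum.inr j)), fun M R v => ?_⟩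
  let _ := mkS R.toI
  simp [BoundedFormula.realize_bdEqual]

lemma rel (s : B ⊕ U) (f : Fin (arr s) → Fin r) :
    Def B U r (fun _ R v => R.toI s (fun k => v (f k))) := by
  let ρ : (RelLang (B ⊕ U) arr).Relations (arr s) := (⟨s, rfl⟩ : {t : B ⊕ U // arr t = arr s})
  refine ⟨Relations.boundedFormula (L := RelLang (B ⊕ U) arr) ρ
    (fun k => Term.var (Sum.inr (f k))), fun M R v => ?_⟩
  let _ := mkS R.toI
  rw [BoundedFormula.realize_rel]
  rfl

lemma b (s : B) (i j : Fin r) : Def B U r (fun _ R v => R.b s (v i) (v j)) :=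
  (Def.rel (Sum.inl s : B ⊕ U) (![i, j] : Fin 2 → Fin r)).congr (fun _ _ _ => Iff.rfl)

lemma u (s : U) (i : Fin r) : Def B U r (fun _ R v => R.u s (v i)) :=
  (Def.rel (Sum.inr s : B ⊕ U) (![i] : Fin 1 → Fin r)).congr (fun _ _ _ => Iff.rfl)

lemma not {P : ∀ (V : Type), Bs B U V → (Fin r → V) → Prop} (h : Def B U r P) :
    Def B U r (fun V R v => ¬ P V R v) := by
  obtain ⟨ψ, h⟩ := h
  refine ⟨ψ.not, fun M R v => ?_⟩
  let _ := mkS R.toI
  rw [BoundedFormula.realize_not, h]

lemma and {P Q : ∀ (V : Type), Bs B U V → (Fin r → V) → Prop} (h : Def B U r P)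
    (h' : Def B U r Q) : Def B U r (fun V R v => P V R v ∧ Q V R v) := by
  obtain ⟨ψ, h⟩ := h
  obtain ⟨ψ', h'⟩ := h'
  refine ⟨ψ ⊓ ψ', fun M R v => ?_⟩
  let _ := mkS R.toI
  rw [BoundedFormula.realize_inf, h, h']

lemma or {P Q : ∀ (V : Type), Bs B U V → (Fin r → V) → Prop} (h : Def B U r P)
    (h' : Def B U r Q) : Def B U r (fun V R v => P V R v ∨ Q V R v) :=
  (h.not.and h'.not).not.congr (fun V R v => by tauto)

lemma imp {P Q : ∀ (V : Type), Bs B U V → (Fin r → V) → Prop} (h : Def B U r P)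
    (h' : Def B U r Q) : Def B U r (fun V R v => P V R v → Q V R v) :=
  (h.not.or h').congr (fun V R v => by tauto)

lemma iff {P Q : ∀ (V : Type), Bs B U V → (Fin r → V) → Prop} (h : Def B U r P)
    (h' : Def B U r Q) : Def B U r (fun V R v => (P V R v ↔ Q V R v)) :=
  ((h.imp h').and (h'.imp h)).congr (fun V R v => by tauto)

lemma all {P : ∀ (V : Type), Bs B U V → (Fin r → V) → V → Prop}
    (h : Def B U (r + 1) (fun V R v => P V R (fun i => v i.castSucc) (v (Fin.last r)))) :
    Def B U r (fun V R v => ∀ x : V, P V R v x) := by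
  obtain ⟨ψ, h⟩ := h
  refine ⟨ψ.all, fun M R v => ?_⟩
  let _ := mkS R.toI
  rw [BoundedFormula.realize_all]
  refine forall_congr' (fun x => ?_)
  rw [h]
  simp only [Fin.snoc_castSucc, Fin.snoc_last]

lemma ex {P : ∀ (V : Type), Bs B U V → (Fin r → V) → V → Prop}
    (h : Def B U (r + 1) (fun V R v => P V R (fun i => v i.castSucc) (v (Fin.last r)))) :
    Def B U r (fun V R v => ∃ x : V, P V R v x) := by
  obtain ⟨ψ, h⟩ := h
  refine ⟨ψ.ex, fun M R v => ?_⟩
  let _ := mkS R.toI
  rw [BoundedFormula.realize_ex]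
  refine exists_congr (fun x => ?_)
  rw [h]
  simp only [Fin.snoc_castSucc, Fin.snoc_last]

lemma all_finset {γ : Type} (s : Finset γ)
    {P : γ → ∀ (V : Type), Bs B U V → (Fin r → V) → Prop} (h : ∀ c ∈ s, Def B U r (P c)) :
    Def B U r (fun V R v => ∀ c ∈ s, P c V R v) := by
  classical
  induction s using Finset.induction_on with
  | empty => exact (Def.const True).congr (fun V R v => by simp)
  | insert c s hc ih =>
    refine ((h c (Finset.mem_insert_self c s)).and
      (ih (fun d hd => h d (Finset.mem_insert_of_mem hd)))).congr (fun V R v => ?_)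
    simp only [Finset.forall_mem_insert]

lemma all_fin {γ : Type} [Finite γ] {P : γ → ∀ (V : Type), Bs B U V → (Fin r → V) → Prop}
    (h : ∀ c, Def B U r (P c)) : Def B U r (fun V R v => ∀ c, P c V R v) := by
  have := Fintype.ofFinite γ
  exact (all_finset Finset.univ (fun c _ => h c)).congr (fun V R v => by simp)

lemma ex_fin {γ : Type} [Finite γ] {P : γ → ∀ (V : Type), Bs B U V → (Fin r → V) → Prop}
    (h : ∀ c, Def B U r (P c)) : Def B U r (fun V R v => ∃ c, P c V R v) := by
  refine (Def.all_fin (P := fun c V R v => ¬ P c V R v) (fun c => (h c).not)).not.congr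
    (fun V R v => ?_)
  push Not
  rfl

lemma ren {r' : ℕ} {P : ∀ (V : Type), Bs B U V → (Fin r → V) → Prop} (h : Def B U r P)
    (e : Fin r → Fin r') : Def B U r' (fun V R v => P V R (fun i => v (e i))) := by
  obtain ⟨ψ, h⟩ := h
  refine ⟨(BoundedFormula.relabel (fun x : Empty ⊕ Fin r =>
    (Sum.inr (Sum.elim Empty.elim e x) : Empty ⊕ Fin r')) ψ.toFormula :
      (RelLang (B ⊕ U) arr).BoundedFormula Empty (r' + 0)), fun M R v => ?_⟩
  let _ := mkS R.toI
  have h1 := BoundedFormula.realize_relabel (φ := ψ.toFormula) (g := fun x : Empty ⊕ Fin r =>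
    (Sum.inr (Sum.elim Empty.elim e x) : Empty ⊕ Fin r')) (v := (default : Empty → M))
    (xs := (v : Fin (r' + 0) → M))
  refine h1.trans ?_
  have h2 := BoundedFormula.realize_toFormula ψ (Sum.elim (default : Empty → M) v ∘ fun x : Empty ⊕ Fin r =>
    (Sum.inr (Sum.elim Empty.elim e x) : Empty ⊕ Fin r'))
  refine Iff.trans ?_ (h M R (fun i => v (e i)))
  have e1 : (Sum.elim (default : Empty → M) v ∘ fun x : Empty ⊕ Fin r =>
    (Sum.inr (Sum.elim Empty.elim e x) : Empty ⊕ Fin r')) ∘ Sum.inl = (default : Empty → M) :=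
    Subsingleton.elim _ _
  have e2 : (Sum.elim (default : Empty → M) v ∘ fun x : Empty ⊕ Fin r =>
    (Sum.inr (Sum.elim Empty.elim e x) : Empty ⊕ Fin r')) ∘ Sum.inr = fun i => v (e i) := rfl
  rw [e1, e2] at h2
  refine Iff.trans (Iff.of_eq ?_) h2
  congr 1
  funext i
  exact i.elim0

end Def

/-- definable conditions on one element -/
def Def1 (B U : Type) (P : ∀ (V : Type), Bs B U V → V → Prop) : Prop :=
  Def B U 1 (fun V R v => P V R (v 0))

/-- definable conditions on two elements -/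
def Def2 (B U : Type) (P : ∀ (V : Type), Bs B U V → V → V → Prop) : Prop :=
  Def B U 2 (fun V R v => P V R (v 0) (v 1))

lemma Def1.app {P : ∀ (V : Type), Bs B U V → V → Prop} (h : Def1 B U P) {r : ℕ} (i : Fin r) :
    Def B U r (fun V R v => P V R (v i)) := Def.ren h (fun _ => i)

lemma Def2.app {P : ∀ (V : Type), Bs B U V → V → V → Prop} (h : Def2 B U P) {r : ℕ}
    (i j : Fin r) : Def B U r (fun V R v => P V R (v i) (v j)) := Def.ren h (![i, j])

end Pool.Agent.Helper74.SPW
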